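import Pool.Graph.R_pool_sql_team_seeded_3997aac3.Q54.TG.Main
import Pool.Agent.Helper62.DB.Two0

/-!
# Double covers of affine spaces, glued from two affine spaces, as schemes over `k`
-/

set_option autoImplicit false

open CategoryTheory Limits AlgebraicGeometry Pool.Agent.Helper62.EC Pool.Agent.Helper62.DB
open Pool.Agent.Y116.UV (aff affIso affMap affMap_comp closed_affMap range_affMap ft_aff)
open Q54.CU (SchO IsVar IsFT IsDecomp IsAffineBundle affO HypRing hypPoly hypO affStr_bundle)

namespace Pool.Agent.Helper67.AE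

variable {k : Type} [Field k]

lemma isVar_aff (A : Type) [CommRing A] [Algebra k A] [Algebra.FiniteType k A] :
    IsVar (aff k A : SchO k) := by
  have h := ft_aff (R := k) (A := A) True
  exact ⟨⟨h.locallyOfFiniteType, h.quasiCompact⟩, h.separated trivial⟩

section dbl

variable {D : Type} [CommRing D] [Algebra k D] (f : D)

/-- `f = 0` times the affine line -/
abbrev Vl1 : Type := MvPolynomial (Fin 1) (D ⧸ Ideal.span {f})

/-- the closed subscheme `t = 1`, `f = 0` -/
noncomputable def clo : Db f →ₐ[k] Vl1 f :=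
  (((MvPolynomial.uniqueAlgEquiv (D ⧸ Ideal.span {f}) (Fin 1)).restrictScalars k).symm :
    Polynomial (D ⧸ Ideal.span {f}) →ₐ[k] Vl1 f).comp ((clo₁ f).restrictScalars k)

variable {N : ℕ} (e : Polynomial D ≃ₐ[k] MvPolynomial (Fin N) k)

/-- its complement -/
noncomputable def opn : Db f →ₐ[k] MvPolynomial (Fin N) k :=
  (e : Polynomial D →ₐ[k] MvPolynomial (Fin N) k).comp ((chart₁ f).restrictScalars k)

lemma clo_surj : Function.Surjective (clo (k := k) f) := by
  intro x
  obtain ⟨y, rfl⟩ := ((MvPolynomial.uniqueAlgEquiv (D ⧸ Ideal.span {f})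
    (Fin 1)).restrictScalars k).symm.surjective x
  obtain ⟨z, rfl⟩ := clo₁_surj f y
  exact ⟨z, rfl⟩

/-- The double cover `t ^ 2 - t = y f` is the union of the closed subscheme `t = 1`, `f = 0` and of an
open affine space. -/
theorem decomp_dbl : IsDecomp (X := aff k (Db f)) (affMap (clo (k := k) f)) (affMap (opn f e)) := by
  have ht := triple_dbl f k
  have h1 : affMap (clo (k := k) f) = (affIso (((MvPolynomial.uniqueAlgEquiv
      (D ⧸ Ideal.span {f}) (Fin 1)).restrictScalars k).symm)).hom ≫
      affMap ((clo₁ f).restrictScalars k) := by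
    change _ = affMap _ ≫ _
    rw [← affMap_comp]
    rfl
  have h2 : affMap (opn f e) = (affIso e).hom ≫ affMap ((chart₁ f).restrictScalars k) := by
    change _ = affMap _ ≫ _
    rw [← affMap_comp]
    rfl
  have r1 : ∀ {X Y Z : Over (Spec (CommRingCat.of k))} (a : X ≅ Y) (b : Y ⟶ Z),
      Set.range (a.hom ≫ b).left = Set.range b.left := by
    intro X Y Z a b
    have h3 : Function.Surjective a.hom.left := by
      have : IsIso a.hom.left := (inferInstance : IsIso ((Over.forget _).map a.hom))
      exact (Scheme.homeoOfIso (asIso a.hom.left)).surjective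
    rw [Over.comp_left, Scheme.Hom.comp_base, TopCat.coe_comp, h3.range_comp]
  refine ⟨closed_affMap _ (clo_surj f), ?_, ?_⟩
  · rw [h2, Over.comp_left]
    have h3 := ht.opened
    have h4 : IsIso (affIso e).hom.left :=
      (inferInstance : IsIso ((Over.forget _).map (affIso e).hom))
    infer_instance
  · rw [h1, h2, r1, r1, ht.compl, compl_compl]

/-- The projection of `Spec A[x]` to `Spec A`. -/
noncomputable def lineTo (A : Type) [CommRing A] [Algebra k A] :
    (aff k (MvPolynomial (Fin 1) A) : SchO k) ⟶ aff k A :=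
  affMap (IsScalarTower.toAlgHom k A (MvPolynomial (Fin 1) A))

lemma lineTo_bundle (A : Type) [CommRing A] [Algebra k A] :
    IsAffineBundle 1 (lineTo (k := k) A).left :=
  affStr_bundle A 1

end dbl

section hyp

variable {M r : ℕ} (q : Fin (r + 1) → MvPolynomial (Fin M) k)

lemma hypO_eq : hypO q 1 = aff k (HypRing q (1 : k)) := by
  unfold hypO aff
  congr 1
  change Spec.map _ ≫ Spec.map _ = _
  rw [← Spec.map_comp, ← CommRingCat.ofHom_comp]
  congr 2
  ext c
  change Q54.CU.toHyp q 1 (MvPolynomial.C c) = Ideal.Quotient.mk _ (MvPolynomial.C c)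
  rw [Q54.CU.toHyp_apply, MvPolynomial.rename_C]

/-- The affine space of dimension `M + r + 2`. -/
noncomputable def eqv (M r : ℕ) : Polynomial (MvPolynomial (Fin M ⊕ Fin (r + 1)) k) ≃ₐ[k]
    MvPolynomial (Fin (M + (r + 1) + 1)) k :=
  (Polynomial.mapAlgEquiv (MvPolynomial.renameEquiv k finSumFinEquiv)).trans
    (MvPolynomial.finSuccEquiv k (M + (r + 1))).symm

/-- The double cover `t ^ 2 - t = y (∑ λ_j q_j(x) - 1)` of the affine space with coordinates `x`, `λ`
and `y`. -/
noncomputable def dblO : SchO k := aff k (Db (hypPoly q (1 : k)))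

/-- The affine space of dimension `N`. -/
lemma affO_eq (N : ℕ) : affO k N = aff k (MvPolynomial (Fin N) k) := rfl

/-- `X` is the union of two open subschemes which are isomorphic to the affine space of dimension
`N`. -/
def TwoSpaces (N : ℕ) (X : SchO k) : Prop :=
  ∃ j₁ j₂ : affO k N ⟶ X, IsOpenImmersion j₁.left ∧ IsOpenImmersion j₂.left ∧
    Set.range j₁.left ∪ Set.range j₂.left = Set.univ

lemma twoSpaces_dblO : TwoSpaces (M + (r + 1) + 1) (dblO q) :=
  two_spaces0 (hypPoly q (1 : k)) (eqv M r)

lemma smooth_dblO : Smooth (dblO q).hom := smooth0 (hypPoly q (1 : k)) (eqv M r)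

lemma isAffine_dblO : IsAffine (dblO q).left :=
  (inferInstance : IsAffine (Spec (CommRingCat.of (Db (hypPoly q (1 : k))))))

lemma isVar_dblO : IsVar (dblO q) := isVar_aff _

end hyp

end Pool.Agent.Helper67.AE
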