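import Pool.Agent.Helper67.AE.Geo

/-!
# The homology of the double covers `t ^ 2 - t = y (∑ λ_j q_j(x) - 1)`
-/

set_option autoImplicit false

universe v w

namespace Pool.Agent.Helper67.AE

open Q54.CU Q54.TG CategoryTheory Limits MonoidalCategory AlgebraicGeometry
open Pool.Agent.Y116.UV (aff affMap)
open Pool.Agent.Helper62.DB (Db)

section monoidal

variable {𝓜 : Type w} [Category.{v} 𝓜] [MonoidalCategory 𝓜]

/-- Sums of exponents. -/
lemma pw_add (L : 𝓜) (a b : ℕ) : Nonempty (pw L a ⊗ pw L b ≅ pw L (a + b)) := by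
  induction b with
  | zero => exact ⟨ρ_ _⟩
  | succ b ih =>
    obtain ⟨f⟩ := ih
    exact ⟨(α_ _ _ _).symm ≪≫ (f ⊗ᵢ Iso.refl L)⟩

lemma pw_one (L : 𝓜) : Nonempty (pw L 1 ≅ L) := ⟨λ_ L⟩

lemma pw_eq (L : 𝓜) {a b : ℕ} (h : a = b) : Nonempty (pw L a ≅ pw L b) := by
  subst h
  exact ⟨Iso.refl _⟩

end monoidal

variable {k : Type} [Field k] {𝓜 : Type w} [Category.{v} 𝓜] [Abelian 𝓜] [MonoidalCategory 𝓜]
  [MonoidalPreadditive 𝓜] {h : ℤ → SchO k → 𝓜} {L : 𝓜}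

/-- A comparison `Setup` with one more vanishing. -/
structure Setup2 (h : ℤ → SchO k → 𝓜) (X : SchO k) (s M r : ℕ)
    (q : Fin (r + 1) → MvPolynomial (Fin M) k) where
  S : Setup h X s M r q
  above : IsZero (h (2 * M + 1) S.T)

lemma exists_setup2 (hh : IsMotHomology h L) {X : SchO k} (hX : IsVar X) (hT : HasAffineTorsor X) :
    ∃ (s M r : ℕ) (q : Fin (r + 1) → MvPolynomial (Fin M) k), (∀ j, (q j).totalDegree ≤ 2) ∧
      Nonempty (Setup2 h X s M r q) := by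
  obtain ⟨T, s, p, hT, ha, hp⟩ := hT
  obtain ⟨N, hN⟩ := hh.bounded T hT
  obtain ⟨M, r, q, i, hM, hq, hd⟩ := exists_decomp T hT.ft ha (N + 1)
  exact ⟨s, M, r, q, hq, ⟨⟨⟨T, p, i, hT, hX, hp, hd, hN _ (by omega), hN _ (by omega)⟩,
    hN _ (by omega)⟩⟩⟩

section

variable (hh : IsMotHomology h L) {X : SchO k} {s M r : ℕ}
  {q : Fin (r + 1) → MvPolynomial (Fin M) k}

include hh

/-- the homology of the hypersurface in terms of the complement -/
lemma hyp_cpl (q : Fin (r + 1) → MvPolynomial (Fin M) k) (i : ℤ) :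
    Nonempty (h (i + 2 * r) (hypO q 1) ≅ h i (cplO q) ⊗ pw L r) :=
  hh.bundle r (hypO_to q) (isVar_hypO q 1) (isVar_cplO q) (hypO_to_bundle q) i

/-- the product of the hypersurface with the line -/
lemma line_hyp (q : Fin (r + 1) → MvPolynomial (Fin M) k) (i : ℤ) :
    Nonempty (h (i + 2) (aff k (Vl1 (hypPoly q (1 : k)))) ≅ h i (hypO q 1) ⊗ pw L 1) := by
  have h1 := hh.bundle 1 (lineTo (k := k) (HypRing q (1 : k))) (isVar_aff _) (isVar_aff _)
    (lineTo_bundle _) i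
  rw [hypO_eq]
  have h2 : i + 2 * ((1 : ℕ) : ℤ) = i + 2 := by norm_num
  rw [h2] at h1
  exact h1

lemma zero_one (S : Setup2 h X s M r q) : IsZero (h (2 * M + 2 * r + 1) (hypO q 1)) := by
  obtain ⟨e⟩ := hyp_cpl hh q (2 * M + 1)
  have h1 := compl_above hh S.S.i (cplInc q) S.S.dec S.S.top
  have h2 : (2 * M + 1 + 2 * r : ℤ) = 2 * M + 2 * r + 1 := by ring
  rw [h2] at e
  exact (isZero_tensor h1 _).of_iso e

lemma zero_two (S : Setup2 h X s M r q) : IsZero (h (2 * M + 2 * r + 2) (hypO q 1)) := by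
  obtain ⟨e⟩ := hyp_cpl hh q (2 * M + 1 + 1)
  obtain ⟨f⟩ := compl_iso hh S.S.i (cplInc q) S.S.dec (n := 2 * M + 1) (by omega) (by omega)
  have h2 : (2 * M + 1 + 1 + 2 * r : ℤ) = 2 * M + 2 * r + 2 := by ring
  rw [h2] at e
  exact (isZero_tensor (S.above.of_iso f) _).of_iso e

lemma hyp_top (S : Setup2 h X s M r q) :
    Nonempty (h (2 * M + 2 * r) (hypO q 1) ≅ pw L (M + r)) := by
  obtain ⟨e⟩ := hyp_cpl hh q (2 * M)
  obtain ⟨f⟩ := compl_top hh S.S.i (cplInc q) S.S.dec S.S.top S.S.top'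
  obtain ⟨g⟩ := aff_top hh (L := L) (k := k) M
  obtain ⟨a⟩ := pw_add L M r
  exact ⟨e ≪≫ ((f.symm ≪≫ g ≪≫ λ_ _) ⊗ᵢ Iso.refl _) ≪≫ a⟩

end

section

variable (hh : IsMotHomology h L) {X : SchO k} {s M r : ℕ}
  {q : Fin (r + 1) → MvPolynomial (Fin M) k}

include hh

/-- the localization sequence of the double cover -/
lemma dbl_seq (q : Fin (r + 1) → MvPolynomial (Fin M) k) :
    ∃ s : LocSeq h (aff k (Vl1 (hypPoly q (1 : k)))) (dblO q) (affO k (M + (r + 1) + 1)),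
      s.IsExact :=
  hh.localization _ _ (isVar_dblO q) (decomp_dbl (hypPoly q (1 : k)) (eqv M r))

/-- the homology of the double cover, except in the two top degrees -/
lemma dbl_iso (q : Fin (r + 1) → MvPolynomial (Fin M) k) {i : ℤ} (h1 : i ≠ 2 * M + 2 * r + 2)
    (h2 : i ≠ 2 * M + 2 * r + 1) :
    Nonempty (h (i + 2) (dblO q) ≅ h i (hypO q 1) ⊗ pw L 1) := by
  obtain ⟨s, hs⟩ := dbl_seq hh q
  have z1 : IsZero (h (i + 2 + 1) (affO k (M + (r + 1) + 1))) := aff_zero hh _ (by omega)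
  have z0 : IsZero (h (i + 2) (affO k (M + (r + 1) + 1))) := aff_zero hh _ (by omega)
  have hmono : Mono (s.a (i + 2)) := by
    obtain ⟨_, hex⟩ := (hs (i + 2)).2.2
    exact hex.mono_g (z1.eq_of_src _ _)
  have hepi : Epi (s.a (i + 2)) := by
    obtain ⟨_, hex⟩ := (hs (i + 2)).1
    exact hex.epi_f (z0.eq_of_tgt _ _)
  have hiso : IsIso (s.a (i + 2)) := isIso_of_mono_of_epi _
  obtain ⟨e⟩ := line_hyp hh q i
  exact ⟨(asIso (s.a (i + 2))).symm ≪≫ e⟩

lemma dbl_zero (S : Setup2 h X s M r q) : IsZero (h (2 * M + 2 * r + 3) (dblO q)) := by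
  obtain ⟨s, hs⟩ := dbl_seq hh q
  have z0 : IsZero (h (2 * M + 2 * r + 3) (affO k (M + (r + 1) + 1))) :=
    aff_zero hh _ (by omega)
  obtain ⟨e⟩ := line_hyp hh q (2 * M + 2 * r + 1)
  have z1 : IsZero (h (2 * M + 2 * r + 3) (aff k (Vl1 (hypPoly q (1 : k))))) := by
    have h2 : (2 * M + 2 * r + 1 + 2 : ℤ) = 2 * M + 2 * r + 3 := by ring
    rw [h2] at e
    exact (isZero_tensor (zero_one hh S) _).of_iso e
  obtain ⟨_, hex⟩ := (hs (2 * M + 2 * r + 3)).1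
  have hepi : Epi (s.a (2 * M + 2 * r + 3)) := hex.epi_f (z0.eq_of_tgt _ _)
  exact IsZero.of_epi (s.a (2 * M + 2 * r + 3)) z1

lemma dbl_top (S : Setup2 h X s M r q) :
    Nonempty (h (2 * M + 2 * r + 4) (dblO q) ≅ pw L (M + (r + 1) + 1)) := by
  obtain ⟨s, hs⟩ := dbl_seq hh q
  obtain ⟨e⟩ := line_hyp hh q (2 * M + 2 * r + 1)
  obtain ⟨e'⟩ := line_hyp hh q (2 * M + 2 * r + 2)
  have z1 : IsZero (h (2 * M + 2 * r + 3) (aff k (Vl1 (hypPoly q (1 : k))))) := by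
    have h2 : (2 * M + 2 * r + 1 + 2 : ℤ) = 2 * M + 2 * r + 3 := by ring
    rw [h2] at e
    exact (isZero_tensor (zero_one hh S) _).of_iso e
  have z2 : IsZero (h (2 * M + 2 * r + 4) (aff k (Vl1 (hypPoly q (1 : k))))) := by
    have h2 : (2 * M + 2 * r + 2 + 2 : ℤ) = 2 * M + 2 * r + 4 := by ring
    rw [h2] at e'
    exact (isZero_tensor (zero_two hh S) _).of_iso e'
  have hmono : Mono (s.b (2 * M + 2 * r + 4)) := by
    obtain ⟨_, hex⟩ := (hs (2 * M + 2 * r + 4)).1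
    exact hex.mono_g (z2.eq_of_src _ _)
  have hepi : Epi (s.b (2 * M + 2 * r + 4)) := by
    have h4 : ∀ m : ℤ, m + 1 = 2 * M + 2 * r + 4 → ExactAt (s.b (m + 1)) (s.d m) →
        IsZero (h m (aff k (Vl1 (hypPoly q (1 : k))))) → Epi (s.b (2 * M + 2 * r + 4)) := by
      rintro m hm ⟨_, hex⟩ hz
      have h5 : Epi (s.b (m + 1)) := hex.epi_f (hz.eq_of_tgt _ _)
      rw [hm] at h5
      exact h5
    exact h4 (2 * M + 2 * r + 3) (by ring) (hs _).2.1 z1
  have hiso : IsIso (s.b (2 * M + 2 * r + 4)) := isIso_of_mono_of_epi _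
  obtain ⟨g⟩ := aff_top hh (L := L) (k := k) (M + (r + 1) + 1)
  have h3 : (2 * ((M + (r + 1) + 1 : ℕ) : ℤ)) = 2 * M + 2 * r + 4 := by push_cast; ring
  rw [h3] at g
  exact ⟨asIso (s.b (2 * M + 2 * r + 4)) ≪≫ g ≪≫ λ_ _⟩

end

section main

variable (hh : IsMotHomology h L) {L' : 𝓜} (hL : L ⊗ L' ≅ 𝟙_ 𝓜) {X : SchO k} {s M r : ℕ}
  {q : Fin (r + 1) → MvPolynomial (Fin M) k} (S : Setup2 h X s M r q) {C : 𝓜 → Prop}
  (hC : IsTann C)

include hh S hC

/-- The homology of the double cover is contained in the category generated by that of the hypersurface and the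
Tate object. -/
lemma dbl_down (hZ : ∀ i, C (h i (hypO q 1))) (hCL : C L) (i : ℤ) : C (h i (dblO q)) := by
  by_cases h1 : i = 2 * M + 2 * r + 4
  · subst h1
    obtain ⟨e⟩ := dbl_top hh S
    exact hC.iso ⟨e.symm⟩ (hC.pow hCL _)
  by_cases h2 : i = 2 * M + 2 * r + 3
  · subst h2
    exact hC.zero (dbl_zero hh S)
  obtain ⟨e⟩ := dbl_iso hh q (i := i - 2) (by omega) (by omega)
  rw [sub_add_cancel] at e
  exact hC.iso ⟨e.symm⟩ (hC.tensor (hZ _) (hC.pow hCL 1))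

include hL

/-- The Tate object is contained in the category generated by the homology of the double cover. -/
lemma dbl_tate (hY : ∀ i, C (h i (dblO q))) : C L := by
  obtain ⟨e⟩ := dbl_top hh S
  obtain ⟨f⟩ := dbl_iso hh q (i := 2 * M + 2 * r) (by omega) (by omega)
  obtain ⟨g⟩ := hyp_top hh S
  obtain ⟨a⟩ := pw_add L (M + r) 1
  obtain ⟨b⟩ := pw_add L 1 (M + r + 1)
  obtain ⟨c⟩ := pw_eq L (a := 1 + (M + r + 1)) (b := M + (r + 1) + 1) (by omega)
  obtain ⟨d⟩ := pw_one L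
  obtain ⟨i⟩ := pw_inv hL (M + r + 1)
  have h1 : C (pw L (M + r + 1)) := hC.iso ⟨f ≪≫ (g ⊗ᵢ Iso.refl _) ≪≫ a⟩ (hY _)
  have h2 : C (pw L (M + (r + 1) + 1)) := hC.iso ⟨e⟩ (hY _)
  have h3 : C (pw L 1 ⊗ pw L (M + r + 1)) := hC.iso ⟨(b ≪≫ c).symm⟩ h2
  exact hC.iso ⟨d⟩ (hC.cancel i h1 h3)

/-- The homology of the hypersurface is contained in the category generated by that of the double cover. -/
lemma dbl_up (hY : ∀ i, C (h i (dblO q))) (i : ℤ) : C (h i (hypO q 1)) := by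
  by_cases h1 : i = 2 * M + 2 * r + 2
  · subst h1
    exact hC.zero (zero_two hh S)
  by_cases h2 : i = 2 * M + 2 * r + 1
  · subst h2
    exact hC.zero (zero_one hh S)
  obtain ⟨e⟩ := dbl_iso hh q h1 h2
  obtain ⟨j⟩ := pw_inv hL 1
  exact hC.cancel j (hC.pow (dbl_tate hh hL S hC hY) 1) (hC.iso ⟨e⟩ (hY _))

omit hC C

/-- **The category generated by the homology of the double cover is the category generated by the Tate
object and the homology of `X`.** -/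
theorem tann_dbl : tann (homs h (dblO q)) = tann (insert L (homs h X)) := by
  rw [← tann_eq' hh hL S.S]
  funext A
  refine propext ⟨fun hA C hC hX => ?_, fun hA C hC hE => ?_⟩
  · have hZ : ∀ i, C (h i (hypO q 1)) := fun i => hX _ (Or.inr ⟨i, rfl⟩)
    refine hA C hC ?_
    rintro _ ⟨i, rfl⟩
    exact dbl_down hh S hC hZ (hX _ (Or.inl rfl)) i
  · have hY : ∀ i, C (h i (dblO q)) := fun i => hE _ ⟨i, rfl⟩
    refine hA C hC ?_
    rintro _ (rfl | ⟨i, rfl⟩)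
    · exact dbl_tate hh hL S hC hY
    · exact dbl_up hh hL S hC hY i

end main

end Pool.Agent.Helper67.AE
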